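import Pool.Agent.X17.CycSum.Up

/-!
# The largest pre-period
-/

set_option autoImplicit false

namespace Pool.Agent.X17.CycSum

open Polynomial Finset

variable {m n : ℕ} [NeZero m] [NeZero n]

/-- the map `T` -/
def T (a : Fin n → ZMod m) : Fin n → ZMod m := fun i => a i + a (i + 1)

/-- the cycle length -/
noncomputable def cycleLength (a : Fin n → ZMod m) : ℕ :=
  sInf {P : ℕ | 0 < P ∧ ∃ N : ℕ, 0 < N ∧ ∀ k ≥ N, T^[k + P] a = T^[k] a}

/-- the pre-period -/
noncomputable def prePeriod (a : Fin n → ZMod m) : ℕ :=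
  sInf {N : ℕ | 0 < N ∧ ∀ k ≥ N, T^[k + cycleLength a] a = T^[k] a}

lemma cyc_nonempty (a : Fin n → ZMod m) :
    {P : ℕ | 0 < P ∧ ∃ N : ℕ, 0 < N ∧ ∀ k ≥ N, T^[k + P] a = T^[k] a}.Nonempty := by
  obtain ⟨i, j, hij, h⟩ := Finite.exists_ne_map_eq_of_infinite (fun k : ℕ => T^[k] a)
  wlog hlt : i < j generalizing i j with H
  · exact H j i hij.symm h.symm (by omega)
  refine ⟨j - i, by omega, i + 1, by omega, ?_⟩
  intro k hk
  obtain ⟨d, rfl⟩ : ∃ d, k = d + i := ⟨k - i, by omega⟩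
  have e1 : d + i + (j - i) = d + j := by omega
  rw [e1, Function.iterate_add_apply, Function.iterate_add_apply]
  exact congrArg _ h.symm

lemma cyc_spec (a : Fin n → ZMod m) : 0 < cycleLength a ∧
    ∃ N : ℕ, 0 < N ∧ ∀ k ≥ N, T^[k + cycleLength a] a = T^[k] a :=
  Nat.sInf_mem (cyc_nonempty a)

lemma pre_nonempty (a : Fin n → ZMod m) :
    {N : ℕ | 0 < N ∧ ∀ k ≥ N, T^[k + cycleLength a] a = T^[k] a}.Nonempty :=
  (cyc_spec a).2

lemma pre_spec (a : Fin n → ZMod m) : 0 < prePeriod a ∧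
    ∀ k ≥ prePeriod a, T^[k + cycleLength a] a = T^[k] a :=
  Nat.sInf_mem (pre_nonempty a)

lemma pre_le (a : Fin n → ZMod m) {N : ℕ} (h1 : 0 < N)
    (h : ∀ k ≥ N, T^[k + cycleLength a] a = T^[k] a) : prePeriod a ≤ N :=
  Nat.sInf_le ⟨h1, h⟩

/-- the shift -/
def S (m n : ℕ) [NeZero n] : AddMonoid.End (Fin n → ZMod m) where
  toFun a := fun i => a (i + 1)
  map_zero' := rfl
  map_add' _ _ := rfl

open Fin.CommRing in
lemma S_pow (k : ℕ) (a : Fin n → ZMod m) (i : Fin n) :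
    ((S m n) ^ k) a i = a (i + (k : Fin n)) := by
  induction k generalizing i with
  | zero => simp
  | succ k ih =>
    rw [pow_succ']
    show ((S m n) ^ k) a (i + 1) = _
    rw [ih]
    congr 1
    push_cast
    ring

open Fin.CommRing in
lemma S_pow_n : (S m n) ^ n = 1 := by
  refine AddMonoidHom.ext fun a => funext fun i => ?_
  refine (S_pow n a i).trans ?_
  show a (i + (n : Fin n)) = a i
  simp

lemma m_cast : ((m : ℕ) : AddMonoid.End (Fin n → ZMod m)) = 0 := by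
  ext a i
  rw [AddMonoid.End.natCast_apply]
  simp

lemma T_eq (a : Fin n → ZMod m) : T a = (1 + S m n) a := rfl

lemma T_iter (k : ℕ) (a : Fin n → ZMod m) : T^[k] a = ((1 + S m n) ^ k) a := by
  induction k with
  | zero => rfl
  | succ k ih =>
    rw [Function.iterate_succ_apply', ih, pow_succ']
    rfl

/-- the evaluation -/
noncomputable def ev (m n : ℕ) [NeZero n] : ℤ[X] →+* AddMonoid.End (Fin n → ZMod m) :=
  eval₂RingHom' (Int.castRingHom _) (S m n) (fun a => (Int.cast_commute a _))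

lemma ev_X : ev m n X = S m n := by simp [ev]

lemma upper_T {N : ℕ} (h : (1 + X : ℤ[X]) ^ N ∈ JJ m n N) :
    ∃ r : AddMonoid.End (Fin n → ZMod m), Commute r (1 + S m n) ∧
      (1 + S m n) ^ N = r * (1 + S m n) ^ (N + 1) := by
  have h1 : JJ m n N ≤ Ideal.comap (ev m n) ⊥ ⊔ Ideal.span {(1 + X) ^ (N + 1)} := by
    unfold JJ
    rw [Ideal.span_le]
    rintro f hf
    simp only [Set.mem_insert_iff, Set.mem_singleton_iff] at hf
    rcases hf with rfl | rfl | rfl
    · exact Ideal.mem_sup_right (Ideal.subset_span rfl)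
    · refine Ideal.mem_sup_left ?_
      rw [Ideal.mem_comap, Ideal.mem_bot]
      have : ev m n (C (m : ℤ)) = ((m : ℕ) : AddMonoid.End (Fin n → ZMod m)) := by
        simp [ev]
      rw [this, m_cast]
    · refine Ideal.mem_sup_left ?_
      rw [Ideal.mem_comap, Ideal.mem_bot, map_sub, map_pow, ev_X, S_pow_n, map_one, sub_self]
  have h2 := h1 h
  rw [Submodule.mem_sup] at h2
  obtain ⟨y, hy, z, hz, hyz⟩ := h2
  rw [Ideal.mem_comap, Ideal.mem_bot] at hy
  obtain ⟨g, rfl⟩ := Ideal.mem_span_singleton'.1 hz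
  have h3 := congrArg (ev m n) hyz
  rw [map_add, hy, zero_add, map_mul, map_pow, map_pow, map_add, map_one, ev_X] at h3
  refine ⟨ev m n g, ?_, h3.symm⟩
  have h4 : ev m n (g * (1 + X)) = ev m n ((1 + X) * g) := by rw [mul_comm]
  rw [map_mul, map_mul, map_add, map_one, ev_X] at h4
  exact h4

lemma upper_bound {N : ℕ} (hN1 : 1 ≤ N) (hN : ∀ p ∈ m.primeFactors, np m n p ≤ N)
    (a : Fin n → ZMod m) : prePeriod a ≤ N := by
  obtain ⟨r, hc, hr⟩ := upper_T (m := m) (n := n) (mem_JJ (NeZero.ne m) (NeZero.ne n) hN1 hN)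
  have hpow : ∀ j : ℕ, (1 + S m n) ^ N = r ^ j * (1 + S m n) ^ (N + j) := by
    intro j
    induction j with
    | zero => simp
    | succ j ih =>
      calc (1 + S m n) ^ N = r ^ j * ((1 + S m n) ^ N * (1 + S m n) ^ j) := by
            rw [← pow_add, ← ih]
        _ = r ^ j * (r * (1 + S m n) ^ (N + 1) * (1 + S m n) ^ j) := by rw [← hr]
        _ = r ^ (j + 1) * (1 + S m n) ^ (N + (j + 1)) := by
            rw [pow_succ r j, mul_assoc r, ← pow_add, mul_assoc, show N + 1 + j = N + (j + 1) by ring]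
  obtain ⟨hP, M, hM, hk⟩ := cyc_spec a
  refine pre_le a hN1 ?_
  intro k hkN
  obtain ⟨d, rfl⟩ : ∃ d, k = d + N := ⟨k - N, by omega⟩
  have h1 : T^[N + cycleLength a] a = T^[N] a := by
    have h2 := hk (N + M) (by omega)
    rw [T_iter, T_iter] at h2 ⊢
    calc ((1 + S m n) ^ (N + cycleLength a)) a
        = (((1 + S m n) ^ N) * (1 + S m n) ^ cycleLength a) a := by rw [pow_add]
      _ = ((r ^ M * (1 + S m n) ^ (N + M)) * (1 + S m n) ^ cycleLength a) a := by rw [← hpow M]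
      _ = (r ^ M * (1 + S m n) ^ (N + M + cycleLength a)) a := by rw [mul_assoc, ← pow_add]
      _ = (r ^ M) (((1 + S m n) ^ (N + M + cycleLength a)) a) := rfl
      _ = (r ^ M) (((1 + S m n) ^ (N + M)) a) := by rw [h2]
      _ = (r ^ M * (1 + S m n) ^ (N + M)) a := rfl
      _ = ((1 + S m n) ^ N) a := by rw [← hpow M]
  rw [add_assoc, Function.iterate_add_apply, h1, ← Function.iterate_add_apply]

/-! ## The lower bound -/

section Low

variable {B : Type*} [CommRing B]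

/-- the additive map from `ZMod m` -/
noncomputable def io (hm : ((m : ℕ) : B) = 0) : ZMod m →+ B :=
  ZMod.lift m ⟨Int.castAddHom B, by simpa using hm⟩

lemma io_one (hm : ((m : ℕ) : B) = 0) : io hm (1 : ZMod m) = 1 := by
  have h : ((1 : ℤ) : ZMod m) = 1 := Int.cast_one
  rw [← h]
  unfold io
  rw [ZMod.lift_coe]
  simp

/-- the additive functional -/
noncomputable def phi (hm : ((m : ℕ) : B) = 0) (x : B) (a : Fin n → ZMod m) : B :=
  ∑ i : Fin n, io hm (a i) * x ^ (n - (i : ℕ))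

lemma psi_succ (x : B) (hx : x ^ n = 1) (i : Fin n) :
    x ^ (n - (i : ℕ)) = x * x ^ (n - ((i + 1 : Fin n) : ℕ)) := by
  have hn : 0 < n := Nat.pos_of_ne_zero (NeZero.ne n)
  have hi := i.2
  by_cases h : (i : ℕ) + 1 < n
  · have h1 : ((i + 1 : Fin n) : ℕ) = i + 1 := Fin.val_add_one_of_lt' h
    rw [h1, ← pow_succ']
    congr 1; omega
  · have h0 : (i : ℕ) + 1 = n := by omega
    have h1 : ((i + 1 : Fin n) : ℕ) = 0 := by
      rw [Fin.val_add]
      rcases Nat.lt_or_ge 1 n with h2 | h2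
      · have : ((1 : Fin n) : ℕ) = 1 := by
          rw [Fin.val_one', Nat.mod_eq_of_lt h2]
        rw [this, h0, Nat.mod_self]
      · have h3 : n = 1 := by omega
        have : ((i : ℕ) + ((1 : Fin n) : ℕ)) % n < n := Nat.mod_lt _ hn
        omega
    rw [h1, Nat.sub_zero, hx, mul_one]
    have : n - (i : ℕ) = 1 := by omega
    rw [this, pow_one]

lemma phi_T (hm : ((m : ℕ) : B) = 0) (x : B) (hx : x ^ n = 1) (a : Fin n → ZMod m) :
    phi hm x (T a) = (1 + x) * phi hm x a := by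
  unfold phi T
  simp only [map_add, add_mul, one_mul]
  rw [Finset.sum_add_distrib]
  congr 1
  rw [Finset.mul_sum]
  rw [← Equiv.sum_comp (Equiv.addRight (1 : Fin n)) (fun i => x * (io hm (a i) * x ^ (n - (i : ℕ))))]
  refine Finset.sum_congr rfl fun i _ => ?_
  rw [Equiv.coe_addRight]
  rw [psi_succ x hx i]
  ring

lemma phi_iter (hm : ((m : ℕ) : B) = 0) (x : B) (hx : x ^ n = 1) (k : ℕ) (a : Fin n → ZMod m) :
    phi hm x (T^[k] a) = (1 + x) ^ k * phi hm x a := by
  induction k with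
  | zero => simp
  | succ k ih => rw [Function.iterate_succ_apply', phi_T hm x hx, ih, pow_succ']; ring

/-- the unit vector -/
def e0 (m n : ℕ) [NeZero n] : Fin n → ZMod m := fun i => if i = 0 then 1 else 0

lemma phi_e0 (hm : ((m : ℕ) : B) = 0) (x : B) (hx : x ^ n = 1) : phi hm x (e0 m n) = 1 := by
  unfold phi e0
  rw [Finset.sum_eq_single 0]
  · rw [if_pos rfl, io_one, one_mul]
    simpa using hx
  · intro i _ hi
    rw [if_neg hi, map_zero, zero_mul]
  · intro h; exact absurd (mem_univ _) h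

lemma pow_zero_of (hm : ((m : ℕ) : B) = 0) (x : B) (hx : x ^ n = 1) (hnil : ∃ L, (1 + x) ^ L = 0)
    {k : ℕ} (hk : prePeriod (e0 m n) ≤ k) : (1 + x) ^ k = 0 := by
  obtain ⟨hP, _⟩ := cyc_spec (e0 m n)
  have h1 := (pre_spec (e0 m n)).2
  have h2 : ∀ j : ℕ, T^[k + j * cycleLength (e0 m n)] (e0 m n) = T^[k] (e0 m n) := by
    intro j
    induction j with
    | zero => simp
    | succ j ih =>
      have h3 := h1 (k + j * cycleLength (e0 m n)) (by omega)
      rw [← ih, ← h3]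
      congr 1; ring
  obtain ⟨L, hL⟩ := hnil
  have h3 := congrArg (phi hm x) (h2 L)
  rw [phi_iter hm x hx, phi_iter hm x hx, phi_e0 hm x hx, mul_one, mul_one] at h3
  rw [← h3]
  have h4 : L ≤ k + L * cycleLength (e0 m n) := by
    have : L * 1 ≤ L * cycleLength (e0 m n) := Nat.mul_le_mul_left _ hP
    omega
  obtain ⟨d, hd⟩ := Nat.exists_eq_add_of_le h4
  rw [hd, pow_add, hL, zero_mul]

end Low

/-- the lower bound in the quotient of `ℤ[X]` -/
lemma low_quot {p : ℕ} (hp : p.Prime) (hev : Even n) {e k : ℕ} (he : m.factorization p = e + 1)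
    (hk : n.factorization p = k + 1) :
    p ^ k * ((e + 1) * (p - 1) + 1) ≤ prePeriod (e0 m n) := by
  have : Fact p.Prime := ⟨hp⟩
  by_contra hlt
  push Not at hlt
  let I : Ideal ℤ[X] := Ideal.span {C ((p : ℤ) ^ (e + 1)), X ^ p ^ (k + 1) - 1}
  let x : ℤ[X] ⧸ I := Ideal.Quotient.mk I (-X)
  have hpe : ((p ^ (e + 1) : ℕ) : ℤ[X] ⧸ I) = 0 := by
    have : ((p ^ (e + 1) : ℕ) : ℤ[X] ⧸ I) = Ideal.Quotient.mk I (C ((p : ℤ) ^ (e + 1))) := by
      simp
    rw [this, Ideal.Quotient.eq_zero_iff_mem]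
    exact Ideal.subset_span (by simp)
  have hm : ((m : ℕ) : ℤ[X] ⧸ I) = 0 := by
    have h1 : p ^ (e + 1) ∣ m := by rw [← he]; exact Nat.ordProj_dvd m p
    obtain ⟨c, hc⟩ := h1
    have h2 : ((m : ℕ) : ℤ[X] ⧸ I) = ((p ^ (e + 1) * c : ℕ) : ℤ[X] ⧸ I) := by rw [← hc]
    rw [h2, Nat.cast_mul, hpe, zero_mul]
  have hX : (Ideal.Quotient.mk I X) ^ p ^ (k + 1) = 1 := by
    have h1 : Ideal.Quotient.mk I (X ^ p ^ (k + 1) - 1) = 0 := by
      rw [Ideal.Quotient.eq_zero_iff_mem]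
      exact Ideal.subset_span (by simp)
    rw [map_sub, map_pow, map_one] at h1
    exact sub_eq_zero.1 h1
  have hx : x ^ n = 1 := by
    have h1 : x ^ n = (Ideal.Quotient.mk I) X ^ n := by
      show (Ideal.Quotient.mk I (-X)) ^ n = _
      rw [← map_pow, ← map_pow, hev.neg_pow]
    rw [h1]
    have h2 : p ^ (k + 1) ∣ n := by rw [← hk]; exact Nat.ordProj_dvd n p
    obtain ⟨c, hc⟩ := h2
    rw [hc, pow_mul, hX, one_pow]
  have h1x : 1 + x = Ideal.Quotient.mk I (1 - X) := by simp [x, sub_eq_add_neg]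
  have hmem : ∀ f : ℤ[X], f ∈ I ↔ ∃ a b : ℤ[X], f = C ((p : ℤ) ^ (e + 1)) * a +
      (X ^ p ^ (k + 1) - 1) * b := by
    intro f
    rw [Ideal.mem_span_pair]
    constructor
    · rintro ⟨a, b, h⟩
      exact ⟨a, b, by rw [← h]; ring⟩
    · rintro ⟨a, b, h⟩
      exact ⟨a, b, by rw [h]; ring⟩
  have hnil : ∃ L, (1 + x) ^ L = 0 := by
    refine ⟨p ^ k * ((e + 1) * (p - 1) + 1), ?_⟩
    rw [h1x, ← map_pow, Ideal.Quotient.eq_zero_iff_mem, hmem]
    exact upper k (e + 1)
  have h0 := pow_zero_of (n := n) hm x hx hnil (k := p ^ k * ((e + 1) * (p - 1) + 1) - 1) (by omega)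
  rw [h1x, ← map_pow, Ideal.Quotient.eq_zero_iff_mem, hmem] at h0
  exact lower k e h0

lemma low_two {e : ℕ} (he : m.factorization 2 = e + 1) :
    e + 1 ≤ prePeriod (e0 m n) := by
  by_contra hlt
  push Not at hlt
  have h2 : ((2 ^ (e + 1) : ℕ) : ZMod (2 ^ (e + 1))) = 0 := ZMod.natCast_self _
  have hm : ((m : ℕ) : ZMod (2 ^ (e + 1))) = 0 := by
    rw [ZMod.natCast_eq_zero_iff, ← he]
    exact Nat.ordProj_dvd m 2
  have hnil : ∃ L, (1 + 1 : ZMod (2 ^ (e + 1))) ^ L = 0 := by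
    refine ⟨e + 1, ?_⟩
    rw [one_add_one_eq_two]
    exact_mod_cast h2
  have h0 := pow_zero_of (n := n) hm 1 (one_pow n) hnil (k := e) (by omega)
  rw [one_add_one_eq_two] at h0
  have h3 : ((2 ^ e : ℕ) : ZMod (2 ^ (e + 1))) = 0 := by exact_mod_cast h0
  rw [ZMod.natCast_eq_zero_iff] at h3
  have h4 := (Nat.pow_dvd_pow_iff_le_right (by norm_num)).1 h3
  omega

theorem lower_bound {p : ℕ} (hp : p ∈ m.primeFactors) : np m n p ≤ prePeriod (e0 m n) := by
  have hpp := Nat.prime_of_mem_primeFactors hp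
  have hdvd := Nat.dvd_of_mem_primeFactors hp
  have he0 : 0 < m.factorization p := hpp.factorization_pos_of_dvd (NeZero.ne m) hdvd
  obtain ⟨e, he⟩ : ∃ e, m.factorization p = e + 1 := ⟨m.factorization p - 1, by omega⟩
  unfold np
  split_ifs with h2 h3 h4
  · subst h2
    rw [he]
    exact low_two he
  · subst h2
    obtain ⟨k, hk⟩ : ∃ k, n.factorization 2 = k + 1 := ⟨n.factorization 2 - 1, by omega⟩
    have hev : Even n := by
      rw [even_iff_two_dvd]
      exact Nat.dvd_of_factorization_pos (by omega)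
    have := low_quot hpp hev he hk
    rw [he, hk, Nat.add_sub_cancel]
    simpa using this
  · obtain ⟨k, hk⟩ : ∃ k, n.factorization p = k + 1 := ⟨n.factorization p - 1, by omega⟩
    have := low_quot hpp h4.1 he hk
    rw [he, hk, Nat.add_sub_cancel]
    exact this
  · exact (pre_spec (e0 m n)).1

/-- the largest pre-period -/
noncomputable def Nmax (m n : ℕ) [NeZero m] [NeZero n] : ℕ :=
  sSup {N : ℕ | ∃ a : Fin n → ZMod m, prePeriod a = N}

theorem main (m n : ℕ) [NeZero m] [NeZero n] :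
    IsGreatest {N : ℕ | ∃ a : Fin n → ZMod m, prePeriod a = N}
      (max 1 (m.primeFactors.sup (np m n))) := by
  have hup : ∀ a : Fin n → ZMod m, prePeriod a ≤ max 1 (m.primeFactors.sup (np m n)) :=
    fun a => upper_bound (le_max_left _ _) (fun p hp => le_max_of_le_right (Finset.le_sup hp)) a
  refine ⟨⟨e0 m n, le_antisymm (hup _) ?_⟩, ?_⟩
  · refine max_le (pre_spec (e0 m n)).1 (Finset.sup_le fun p hp => lower_bound hp)
  · rintro N ⟨a, rfl⟩
    exact hup a

theorem main' (m n : ℕ) [NeZero m] [NeZero n] :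
    Nmax m n = max 1 (m.primeFactors.sup (np m n)) :=
  (main m n).csSup_eq

end Pool.Agent.X17.CycSum
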