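import Mathlib

/-!
# Powers of `1 - Y` modulo `Y ^ (p ^ k) - 1` and `p ^ e`
-/

set_option autoImplicit false

namespace Pool.Agent.X17.CycSum

open Polynomial Finset

variable (p q : ℕ)

/-- `1 + Y^q + ... + Y^(q (p-1))` -/
noncomputable def ss : ℤ[X] := ∑ j ∈ range p, X ^ (q * j)

lemma ss_mul : ss p q * (1 - X ^ q) = 1 - X ^ (q * p) := by
  unfold ss
  have h := geom_sum_mul_neg (X ^ q : ℤ[X]) p
  simp only [← pow_mul] at h
  exact h

lemma ss_eval : (ss p q).eval 1 = p := by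
  unfold ss
  simp [eval_finsetSum]

/-- divisibility by an integer from the reduction -/
lemma dvd_of_map {a : ℕ} {f : ℤ[X]} (h : f.map (Int.castRingHom (ZMod a)) = 0) :
    ∃ g : ℤ[X], f = C (a : ℤ) * g := by
  have h1 : C (a : ℤ) ∣ f := by
    rw [C_dvd_iff_dvd_coeff]
    intro i
    have h2 := congrArg (fun g => g.coeff i) h
    simp only [coeff_map, coeff_zero, eq_intCast] at h2
    exact (ZMod.intCast_zmod_eq_zero_iff_dvd _ _).1 h2
  exact h1

variable {p}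

section
variable [hp : Fact p.Prime]

lemma one_sub_ne : (1 - X : (ZMod p)[X]) ≠ 0 := by
  intro h
  have h1 := congrArg (fun g => g.coeff 1) h
  simp [coeff_one] at h1

lemma pow_char (k : ℕ) : (1 - X : (ZMod p)[X]) ^ p ^ k = 1 - X ^ p ^ k := by
  rw [sub_pow_char_pow, one_pow]

/-- the reduction of `ss` -/
lemma ss_map (k : ℕ) : (ss p (p ^ k)).map (Int.castRingHom (ZMod p)) =
    (1 - X : (ZMod p)[X]) ^ (p ^ k * (p - 1)) := by
  have h1 := congrArg (Polynomial.map (Int.castRingHom (ZMod p))) (ss_mul p (p ^ k))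
  rw [Polynomial.map_mul, Polynomial.map_sub, Polynomial.map_sub, Polynomial.map_one,
    Polynomial.map_pow, Polynomial.map_pow, map_X, ← pow_succ, ← pow_char, ← pow_char] at h1
  have h2 : (1 - X : (ZMod p)[X]) ^ p ^ (k + 1) =
      (1 - X : (ZMod p)[X]) ^ (p ^ k * (p - 1)) * (1 - X) ^ p ^ k := by
    rw [← pow_add]
    congr 1
    have := hp.out.one_lt
    obtain ⟨m, rfl⟩ : ∃ m, p = m + 1 := ⟨p - 1, by omega⟩
    rw [Nat.add_sub_cancel]; ring
  rw [h2] at h1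
  exact mul_right_cancel₀ (pow_ne_zero _ one_sub_ne) h1

lemma exists_t (k : ℕ) : ∃ t : ℤ[X], (1 - X : ℤ[X]) ^ (p ^ k * (p - 1)) =
    ss p (p ^ k) + C (p : ℤ) * t := by
  have h : ((1 - X : ℤ[X]) ^ (p ^ k * (p - 1)) - ss p (p ^ k)).map (Int.castRingHom (ZMod p)) = 0 := by
    rw [Polynomial.map_sub, ss_map, Polynomial.map_pow, Polynomial.map_sub, Polynomial.map_one,
      map_X, sub_self]
  obtain ⟨t, ht⟩ := dvd_of_map h
  exact ⟨t, by rw [← ht]; ring⟩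

lemma exists_z (k : ℕ) : ∃ z : ℤ[X], (1 - X : ℤ[X]) ^ p ^ k = (1 - X ^ p ^ k) + C (p : ℤ) * z := by
  have h : ((1 - X : ℤ[X]) ^ p ^ k - (1 - X ^ p ^ k)).map (Int.castRingHom (ZMod p)) = 0 := by
    rw [Polynomial.map_sub, Polynomial.map_pow, Polynomial.map_sub, Polynomial.map_sub,
      Polynomial.map_one, Polynomial.map_pow, map_X, pow_char, sub_self]
  obtain ⟨t, ht⟩ := dvd_of_map h
  exact ⟨t, by rw [← ht]; ring⟩

end

/-- `s² = p s` modulo `Y^(pq) - 1` -/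
lemma ss_sq (p q : ℕ) : ∃ c : ℤ[X], ss p q * ss p q = C (p : ℤ) * ss p q + (X ^ (q * p) - 1) * c := by
  have h1 : ∀ j : ℕ, ∃ c : ℤ[X], X ^ (q * j) * ss p q = ss p q + (X ^ (q * p) - 1) * c := by
    intro j
    have h2 : (X ^ q - 1 : ℤ[X]) ∣ (X ^ q) ^ j - 1 := sub_one_dvd_pow_sub_one (X ^ q : ℤ[X]) j
    obtain ⟨c, hc⟩ := h2
    refine ⟨c, ?_⟩
    have h3 := ss_mul p q
    have h4 : X ^ (q * j) * ss p q - ss p q = ((X ^ q) ^ j - 1) * ss p q := by
      rw [← pow_mul]; ring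
    have h5 : X ^ (q * j) * ss p q = ss p q + ((X ^ q) ^ j - 1) * ss p q := by
      rw [← h4]; ring
    rw [h5, hc]
    have h6 : (X ^ q - 1 : ℤ[X]) * c * ss p q = (-(ss p q * (1 - X ^ q))) * c := by ring
    rw [h6, h3]; ring
  choose c hc using h1
  refine ⟨∑ j ∈ range p, c j, ?_⟩
  conv_lhs => rw [show ss p q * ss p q = (∑ j ∈ range p, X ^ (q * j)) * ss p q from rfl]
  rw [Finset.sum_mul, Finset.sum_congr rfl fun j _ => hc j, Finset.sum_add_distrib,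
    Finset.sum_const, card_range, Finset.mul_sum, nsmul_eq_mul]
  congr 1

/-- the powers of `s + p t` -/
lemma pow_expand (p q : ℕ) (t : ℤ[X]) (ht : t.eval 1 = -1) (e : ℕ) :
    ∃ g c : ℤ[X], (ss p q + C (p : ℤ) * t) ^ (e + 1) = C ((p : ℤ) ^ (e + 1)) * t ^ (e + 1) +
      C ((p : ℤ) ^ e) * (ss p q * g) + (X ^ (q * p) - 1) * c ∧ g.eval 1 = (-1) ^ e := by
  induction e with
  | zero => exact ⟨1, 0, by simp; ring, by simp⟩
  | succ e ih =>
    obtain ⟨g, c, h, hg⟩ := ih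
    obtain ⟨c', hc'⟩ := ss_sq p q
    refine ⟨t ^ (e + 1) + g * (1 + t), c * (ss p q + C (p : ℤ) * t) + C ((p : ℤ) ^ e) * (c' * g),
      ?_, ?_⟩
    · rw [pow_succ, h]
      have e1 : C ((p : ℤ) ^ (e + 1)) = C ((p : ℤ) ^ e) * C (p : ℤ) := by rw [← C_mul, pow_succ]
      have e2 : C ((p : ℤ) ^ (e + 1 + 1)) = C ((p : ℤ) ^ e) * C (p : ℤ) * C (p : ℤ) := by
        rw [← C_mul, ← C_mul, pow_succ, pow_succ]
      rw [e1, e2]
      linear_combination (C ((p : ℤ) ^ e) * g) * hc'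
    · rw [eval_add, eval_mul, eval_pow, ht, eval_add, eval_one, ht, hg]
      ring

section
variable [hp : Fact p.Prime]

lemma t_eval {k : ℕ} {t : ℤ[X]} (ht : (1 - X : ℤ[X]) ^ (p ^ k * (p - 1)) =
    ss p (p ^ k) + C (p : ℤ) * t) : t.eval 1 = -1 := by
  have h := congrArg (fun f => f.eval 1) ht
  have hpos : p ^ k * (p - 1) ≠ 0 := by
    have := hp.out.one_lt
    have h1 : 0 < p ^ k := pow_pos hp.out.pos k
    have h2 : 0 < p - 1 := by omega
    exact (Nat.mul_pos h1 h2).ne'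
  simp only [eval_pow, eval_sub, eval_one, eval_X, sub_self, eval_add, eval_mul, eval_C,
    ss_eval] at h
  rw [zero_pow hpos] at h
  have hp0 : (p : ℤ) ≠ 0 := by exact_mod_cast hp.out.ne_zero
  have h3 : (p : ℤ) * (t.eval 1 + 1) = 0 := by linarith
  rcases mul_eq_zero.1 h3 with h4 | h4
  · exact absurd h4 hp0
  · linarith

/-- **Upper bound.** -/
theorem upper (k e : ℕ) : ∃ a b : ℤ[X], (1 - X : ℤ[X]) ^ (p ^ k * (e * (p - 1) + 1)) =
    C ((p : ℤ) ^ e) * a + (X ^ p ^ (k + 1) - 1) * b := by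
  obtain ⟨t, ht⟩ := exists_t (p := p) k
  obtain ⟨z, hz⟩ := exists_z (p := p) k
  rcases e with _ | e
  · exact ⟨(1 - X) ^ (p ^ k * (0 * (p - 1) + 1)), 0, by simp⟩
  obtain ⟨g, c, h, _⟩ := pow_expand p (p ^ k) t (t_eval ht) e
  have e1 : p ^ k * ((e + 1) * (p - 1) + 1) = p ^ k + (p ^ k * (p - 1)) * (e + 1) := by ring
  rw [e1, pow_add, pow_mul, ht, h, hz, pow_succ p k]
  have e2 : C ((p : ℤ) ^ (e + 1)) = C ((p : ℤ) ^ e) * C (p : ℤ) := by rw [← C_mul, pow_succ]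
  have h3 := ss_mul p (p ^ k)
  refine ⟨((1 - X ^ p ^ k) + C (p : ℤ) * z) * t ^ (e + 1) + z * (ss p (p ^ k) * g),
    ((1 - X ^ p ^ k) + C (p : ℤ) * z) * c - C ((p : ℤ) ^ e) * g, ?_⟩
  rw [e2]
  linear_combination (C ((p : ℤ) ^ e) * g) * h3

lemma monic_F (n : ℕ) (hn : n ≠ 0) : (X ^ n - 1 : ℤ[X]).Monic := monic_X_pow_sub_C 1 hn

/-- **Sharpness.** -/
theorem lower (k e : ℕ) : ¬ ∃ a b : ℤ[X], (1 - X : ℤ[X]) ^ (p ^ k * ((e + 1) * (p - 1) + 1) - 1) =
    C ((p : ℤ) ^ (e + 1)) * a + (X ^ p ^ (k + 1) - 1) * b := by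
  rintro ⟨a, b, hab⟩
  obtain ⟨t, ht⟩ := exists_t (p := p) k
  obtain ⟨g, c, h, hg⟩ := pow_expand p (p ^ k) t (t_eval ht) e
  have hq : 0 < p ^ k := pow_pos hp.out.pos k
  have e1 : p ^ k * ((e + 1) * (p - 1) + 1) - 1 = (p ^ k - 1) + (p ^ k * (p - 1)) * (e + 1) := by
    have : p ^ k * ((e + 1) * (p - 1) + 1) = p ^ k + (p ^ k * (p - 1)) * (e + 1) := by ring
    omega
  rw [e1, pow_add, pow_mul, ht, h, pow_succ p k] at hab
  -- `p^e` times something
  have e2 : C ((p : ℤ) ^ (e + 1)) = C ((p : ℤ) ^ e) * C (p : ℤ) := by rw [← C_mul, pow_succ]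
  rw [e2] at hab
  have h1 : C ((p : ℤ) ^ e) * (((1 - X) ^ (p ^ k - 1) * (ss p (p ^ k) * g)) -
      C (p : ℤ) * (a - (1 - X) ^ (p ^ k - 1) * t ^ (e + 1))) =
      (X ^ (p ^ k * p) - 1) * (b - (1 - X) ^ (p ^ k - 1) * c) := by
    linear_combination hab
  have hmon : (X ^ (p ^ k * p) - 1 : ℤ[X]).Monic :=
    monic_F _ (Nat.mul_pos hq hp.out.pos).ne'
  -- divide
  have h2 : ∃ b' : ℤ[X], b - (1 - X) ^ (p ^ k - 1) * c = C ((p : ℤ) ^ e) * b' := by
    have h3 := congrArg (Polynomial.map (Int.castRingHom (ZMod (p ^ e)))) h1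
    rw [Polynomial.map_mul, map_C, Polynomial.map_mul] at h3
    have h4 : (Int.castRingHom (ZMod (p ^ e))) ((p : ℤ) ^ e) = 0 := by
      rw [eq_intCast]
      have : (((p ^ e : ℕ) : ℤ) : ZMod (p ^ e)) = 0 := by
        rw [Int.cast_natCast]; exact ZMod.natCast_self _
      exact_mod_cast this
    rw [h4, C_0, zero_mul] at h3
    have h5 := ((hmon.map (Int.castRingHom (ZMod (p ^ e)))).mul_right_eq_zero_iff).1 h3.symm
    obtain ⟨b', hb'⟩ := dvd_of_map h5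
    exact ⟨b', by rw [hb']; push_cast; rfl⟩
  obtain ⟨b', hb'⟩ := h2
  rw [hb'] at h1
  have hpe : C ((p : ℤ) ^ e) ≠ 0 := by
    rw [Ne, C_eq_zero]
    exact pow_ne_zero _ (by exact_mod_cast hp.out.ne_zero)
  have h6 : ((1 - X) ^ (p ^ k - 1) * (ss p (p ^ k) * g)) -
      C (p : ℤ) * (a - (1 - X) ^ (p ^ k - 1) * t ^ (e + 1)) = (X ^ (p ^ k * p) - 1) * b' := by
    apply mul_left_cancel₀ hpe
    rw [h1]; ring
  have h7 := congrArg (Polynomial.map (Int.castRingHom (ZMod p))) h6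
  simp only [Polynomial.map_sub, Polynomial.map_mul, Polynomial.map_pow, Polynomial.map_one,
    map_X, map_C, ss_map] at h7
  have h8 : (Int.castRingHom (ZMod p)) (p : ℤ) = 0 := by simp
  rw [h8, C_0, zero_mul, sub_zero, ← pow_succ p k] at h7
  have h9 : (X ^ p ^ (k + 1) - 1 : (ZMod p)[X]) = -(1 - X) ^ p ^ (k + 1) := by
    rw [pow_char]; ring
  rw [h9] at h7
  have e3 : p ^ (k + 1) = (p ^ k - 1) + p ^ k * (p - 1) + 1 := by
    have := hp.out.one_lt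
    obtain ⟨m, hm⟩ : ∃ m, p = m + 1 := ⟨p - 1, by omega⟩
    have h10 : p ^ (k + 1) = p ^ k * (p - 1) + p ^ k := by
      rw [pow_succ]
      nth_rewrite 2 [hm]
      rw [Nat.mul_add, hm, Nat.add_sub_cancel, mul_one]
    omega
  rw [e3, pow_succ, pow_add] at h7
  have h10 : (1 - X : (ZMod p)[X]) ^ (p ^ k - 1) * (1 - X) ^ (p ^ k * (p - 1)) *
      (g.map (Int.castRingHom (ZMod p)) + (1 - X) * b'.map (Int.castRingHom (ZMod p))) = 0 := by
    linear_combination h7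
  have h11 := (mul_eq_zero.1 h10).resolve_left
    (mul_ne_zero (pow_ne_zero _ one_sub_ne) (pow_ne_zero _ one_sub_ne))
  have h12 := congrArg (fun f => f.eval 1) h11
  simp only [eval_add, eval_mul, eval_sub, eval_one, eval_X, sub_self, zero_mul, add_zero,
    eval_zero] at h12
  have h13 : (g.map (Int.castRingHom (ZMod p))).eval 1 = ((g.eval 1 : ℤ) : ZMod p) := by
    have := eval_map (f := Int.castRingHom (ZMod p)) (p := g) (x := (1 : ZMod p))
    rw [this, ← map_one (Int.castRingHom (ZMod p)), eval₂_hom, eq_intCast]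
  rw [h13, hg] at h12
  push_cast at h12
  exact pow_ne_zero e (neg_ne_zero.2 one_ne_zero) h12

end

end Pool.Agent.X17.CycSum
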