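import Pool.Agent.X17.CycSum.Poly

/-!
# The upper bound
-/

set_option autoImplicit false

namespace Pool.Agent.X17.CycSum

open Polynomial Finset

/-- the exponent for the prime `p` -/
def np (m n p : ℕ) : ℕ :=
  if p = 2 then
    (if n.factorization 2 = 0 then m.factorization 2
      else 2 ^ (n.factorization 2 - 1) * (m.factorization 2 + 1))
  else if Even n ∧ 0 < n.factorization p then
    p ^ (n.factorization p - 1) * (m.factorization p * (p - 1) + 1)
  else 1

/-- the ideal -/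
noncomputable def JJ (m n N : ℕ) : Ideal ℤ[X] :=
  Ideal.span {(1 + X) ^ (N + 1), C (m : ℤ), X ^ n - 1}

lemma mem_a {m n N : ℕ} (f : ℤ[X]) : (1 + X) ^ (N + 1) * f ∈ JJ m n N :=
  Ideal.mul_mem_right _ _ (Ideal.subset_span (by simp))

lemma mem_b {m n N : ℕ} (f : ℤ[X]) : C (m : ℤ) * f ∈ JJ m n N :=
  Ideal.mul_mem_right _ _ (Ideal.subset_span (by simp))

lemma mem_c {m n N : ℕ} (f : ℤ[X]) : (X ^ n - 1) * f ∈ JJ m n N :=
  Ideal.mul_mem_right _ _ (Ideal.subset_span (by simp))

/-- `v = v(-1) + (1 + X) r` -/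
lemma exists_r (v : ℤ[X]) : ∃ r : ℤ[X], v = C (v.eval (-1)) + (1 + X) * r := by
  have h : (X - C (-1) : ℤ[X]) ∣ v - C (v.eval (-1)) := by
    rw [dvd_iff_isRoot]
    simp
  obtain ⟨r, hr⟩ := h
  refine ⟨r, ?_⟩
  have e : (X - C (-1) : ℤ[X]) = 1 + X := by simp; ring
  rw [e] at hr
  rw [← hr]; ring

lemma local_step {m m' e p n M N : ℕ} (hm : m = p ^ e * m') {v a b : ℤ[X]} (hMN : M ≤ N)
    (h : ((1 + X) * v) ^ M = C ((p : ℤ) ^ e) * a + (X ^ n - 1) * b) :
    C ((v.eval (-1)) ^ M * (m' : ℤ)) * (1 + X) ^ N ∈ JJ m n N := by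
  obtain ⟨r, hr⟩ := exists_r (v ^ M)
  rw [eval_pow] at hr
  obtain ⟨d, rfl⟩ := Nat.exists_eq_add_of_le hMN
  have e1 : C ((v.eval (-1)) ^ M * (m' : ℤ)) * (1 + X) ^ (M + d) =
      C (m : ℤ) * ((1 + X) ^ d * a) + (X ^ n - 1) * (C (m' : ℤ) * (1 + X) ^ d * b) -
        (1 + X) ^ (M + d + 1) * (C (m' : ℤ) * r) := by
    have e2 : C ((v.eval (-1)) ^ M) = v ^ M - (1 + X) * r := by rw [hr]; simp
    have e3 : C (m : ℤ) = C ((p : ℤ) ^ e) * C (m' : ℤ) := by
      rw [← C_mul, hm]; push_cast; rfl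
    rw [C_mul, e2, e3, pow_add, pow_succ, pow_add]
    rw [mul_pow] at h
    linear_combination (C (m' : ℤ) * (1 + X) ^ d) * h
  rw [e1]
  exact Ideal.sub_mem _ (Ideal.add_mem _ (mem_b _) (mem_c _)) (mem_a _)

/-- the factor of `1 + X^n`, `n` odd -/
lemma exists_v_odd {n : ℕ} (hn : Odd n) : ∃ v : ℤ[X], (1 + X) * v = 1 + X ^ n ∧ v.eval (-1) = n := by
  have h : (X - C (-1) : ℤ[X]) ∣ 1 + X ^ n := by
    rw [dvd_iff_isRoot, IsRoot.def, eval_add, eval_one, eval_pow, eval_X, hn.neg_one_pow]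
    norm_num
  obtain ⟨v, hv⟩ := h
  have e : (X - C (-1) : ℤ[X]) = 1 + X := by simp; ring
  rw [e] at hv
  refine ⟨v, hv.symm, ?_⟩
  have h1 := congrArg (fun f => (derivative f).eval (-1)) hv
  simp only [derivative_mul, derivative_add, derivative_one, derivative_X, derivative_X_pow, eval_add,
    eval_mul, eval_one, eval_X, eval_pow, eval_zero, zero_add, one_mul, eval_C] at h1
  obtain ⟨k, rfl⟩ := hn
  rw [Nat.add_sub_cancel, pow_mul] at h1
  norm_num at h1
  push_cast
  linarith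

/-- the factor of `1 - X^n`, `n` even -/
lemma exists_v_even {n : ℕ} (hn : Even n) (h0 : n ≠ 0) :
    ∃ v : ℤ[X], (1 + X) * v = 1 - X ^ n ∧ v.eval (-1) = n := by
  have h : (X - C (-1) : ℤ[X]) ∣ 1 - X ^ n := by
    rw [dvd_iff_isRoot, IsRoot.def, eval_sub, eval_one, eval_pow, eval_X, hn.neg_one_pow]
    norm_num
  obtain ⟨v, hv⟩ := h
  have e : (X - C (-1) : ℤ[X]) = 1 + X := by simp; ring
  rw [e] at hv
  refine ⟨v, hv.symm, ?_⟩
  have h1 := congrArg (fun f => (derivative f).eval (-1)) hv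
  simp only [derivative_mul, derivative_add, derivative_sub, derivative_one, derivative_X,
    derivative_X_pow, eval_add, eval_mul, eval_one, eval_X, eval_pow, eval_zero, zero_add, one_mul,
    eval_C, eval_sub] at h1
  have hodd : Odd (n - 1) := by
    obtain ⟨k, rfl⟩ := hn
    exact ⟨k - 1, by omega⟩
  rw [hodd.neg_one_pow] at h1
  norm_num at h1
  linarith

lemma upper_comp {p : ℕ} [Fact p.Prime] (k e : ℕ) (y : ℤ[X]) {n : ℕ} (hy : y ^ p ^ (k + 1) = X ^ n) :
    ∃ a b : ℤ[X], (1 - y) ^ (p ^ k * (e * (p - 1) + 1)) = C ((p : ℤ) ^ e) * a + (X ^ n - 1) * b := by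
  obtain ⟨a, b, h⟩ := upper (p := p) k e
  refine ⟨a.comp y, b.comp y, ?_⟩
  have h1 := congrArg (fun f => f.comp y) h
  simp only [pow_comp, sub_comp, one_comp, X_comp, add_comp, mul_comp, C_comp] at h1
  rw [h1, hy]

/-- for every prime divisor of `m` -/
theorem prime_step {m n N p : ℕ} (hm : m ≠ 0) (hn : n ≠ 0) (hp : p.Prime)
    (hN1 : 1 ≤ N) (hN : np m n p ≤ N) :
    ∃ c : ℤ, ¬ (p : ℤ) ∣ c ∧ C (c * ((m / p ^ m.factorization p : ℕ) : ℤ)) * (1 + X) ^ N ∈ JJ m n N := by
  have hpf : Fact p.Prime := ⟨hp⟩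
  have hm' : m = p ^ m.factorization p * (m / p ^ m.factorization p) :=
    (Nat.ordProj_mul_ordCompl_eq_self m p).symm
  have hn' : n = p ^ n.factorization p * (n / p ^ n.factorization p) :=
    (Nat.ordProj_mul_ordCompl_eq_self n p).symm
  have hnd : ¬ p ∣ n / p ^ n.factorization p := Nat.not_dvd_ordCompl hp hn
  have hnd' : ¬ (p : ℤ) ∣ ((n / p ^ n.factorization p : ℕ) : ℤ) := by
    rw [Int.natCast_dvd_natCast]; exact hnd
  set e := m.factorization p with he
  set k := n.factorization p with hk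
  set m' := m / p ^ e with hm'd
  set n' := n / p ^ k with hn'd
  have hn'0 : n' ≠ 0 := by
    rintro h
    rw [h, mul_zero] at hn'
    exact hn hn'
  have hpow : ∀ M : ℕ, ¬ (p : ℤ) ∣ ((n' : ℕ) : ℤ) ^ M := fun M h =>
    hnd' ((Nat.prime_iff_prime_int.1 hp).dvd_of_dvd_pow h)
  unfold np at hN
  by_cases h2 : p = 2
  · -- p = 2
    rw [if_pos h2] at hN
    have hk2 : n.factorization 2 = k := by rw [hk, h2]
    have he2 : m.factorization 2 = e := by rw [he, h2]
    rw [hk2, he2] at hN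
    have hodd : Odd n' := by
      rw [← Nat.not_even_iff_odd, even_iff_two_dvd, ← h2]
      exact hnd
    obtain ⟨v, hv, hv1⟩ := exists_v_odd hodd
    by_cases hk0 : k = 0
    · rw [if_pos hk0] at hN
      have hnn : n' = n := by
        rw [hk0, pow_zero, one_mul] at hn'
        exact hn'.symm
      refine ⟨(v.eval (-1)) ^ e, by rw [hv1]; exact hpow e, ?_⟩
      have h3 : ((X : ℤ[X]) ^ n - 1) ∣ (1 + X ^ n) ^ e - 2 ^ e := by
        have h4 := sub_dvd_pow_sub_pow (1 + X ^ n : ℤ[X]) 2 e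
        have e5 : (1 + X ^ n - 2 : ℤ[X]) = X ^ n - 1 := by ring
        rwa [e5] at h4
      obtain ⟨b, hb⟩ := h3
      refine local_step (a := 1) (b := b) hm' hN ?_
      rw [hv, hnn]
      have e6 : C ((p : ℤ) ^ e) = (2 : ℤ[X]) ^ e := by
        rw [h2, C_pow]; rfl
      rw [e6]
      linear_combination hb
    · rw [if_neg hk0] at hN
      obtain ⟨k', hk'⟩ : ∃ k', k = k' + 1 := ⟨k - 1, by omega⟩
      have hy : (-X ^ n' : ℤ[X]) ^ p ^ (k' + 1) = X ^ n := by
        rw [neg_pow]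
        have hev : Even (p ^ (k' + 1)) := by
          rw [h2]; exact (even_two).pow_of_ne_zero (by omega)
        rw [hev.neg_one_pow, one_mul, ← pow_mul, ← hk', mul_comm, ← hn']
      obtain ⟨a, b, hab⟩ := upper_comp (p := p) k' e (-X ^ n') hy
      have hM : p ^ k' * (e * (p - 1) + 1) ≤ N := by
        rw [h2]
        rw [hk', Nat.add_sub_cancel] at hN
        simpa using hN
      refine ⟨(v.eval (-1)) ^ (p ^ k' * (e * (p - 1) + 1)), by rw [hv1]; exact hpow _, ?_⟩
      refine local_step (a := a) (b := b) hm' hM ?_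
      rw [hv, ← hab]
      congr 1
      ring
  · rw [if_neg h2] at hN
    have hpodd : Odd p := hp.odd_of_ne_two h2
    by_cases hev : Even n
    · have hev' : Even n' := by
        rw [hn', Nat.even_mul] at hev
        rcases hev with h | h
        · exact absurd h (Nat.not_even_iff_odd.2 hpodd.pow)
        · exact h
      obtain ⟨v, hv, hv1⟩ := exists_v_even hev' hn'0
      by_cases hk0 : k = 0
      · have hnn : n' = n := by
          rw [hk0, pow_zero, one_mul] at hn'
          exact hn'.symm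
        refine ⟨(v.eval (-1)) ^ 1, by rw [hv1]; exact hpow 1, ?_⟩
        refine local_step (a := 0) (b := -1) hm' hN1 ?_
        rw [hv, hnn]; ring
      · rw [if_pos ⟨hev, by omega⟩] at hN
        obtain ⟨k', hk'⟩ : ∃ k', k = k' + 1 := ⟨k - 1, by omega⟩
        have hy : (X ^ n' : ℤ[X]) ^ p ^ (k' + 1) = X ^ n := by
          rw [← pow_mul, ← hk', mul_comm, ← hn']
        obtain ⟨a, b, hab⟩ := upper_comp (p := p) k' e (X ^ n') hy
        have hM : p ^ k' * (e * (p - 1) + 1) ≤ N := by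
          have hN' : p ^ (k - 1) * (e * (p - 1) + 1) ≤ N := hN
          rwa [hk', Nat.add_sub_cancel] at hN'
        refine ⟨(v.eval (-1)) ^ (p ^ k' * (e * (p - 1) + 1)), by rw [hv1]; exact hpow _, ?_⟩
        refine local_step (a := a) (b := b) hm' hM ?_
        rw [hv, ← hab]
    · have hodd : Odd n := Nat.not_even_iff_odd.1 hev
      obtain ⟨v, hv, _⟩ := exists_v_odd hodd
      refine ⟨2, ?_, ?_⟩
      · intro h
        have h3 : p ∣ 2 := by exact_mod_cast h
        exact h2 ((Nat.prime_dvd_prime_iff_eq hp Nat.prime_two).1 h3)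
      · have e1 : C (2 * (m' : ℤ)) * (1 + X) ^ N = (1 + X) ^ (N + 1) * (C (m' : ℤ) * v) +
            (X ^ n - 1) * (-(C (m' : ℤ) * (1 + X) ^ N)) := by
          have e2 : C (2 * (m' : ℤ)) = 2 * C (m' : ℤ) := by rw [C_mul]; rfl
          rw [e2, pow_succ]
          linear_combination (-(C (m' : ℤ) * (1 + X) ^ N)) * hv
        rw [e1]
        exact Ideal.add_mem _ (mem_a _) (mem_c _)

/-- the power is in the ideal -/
theorem mem_JJ {m n N : ℕ} (hm : m ≠ 0) (hn : n ≠ 0) (hN1 : 1 ≤ N)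
    (hN : ∀ p ∈ m.primeFactors, np m n p ≤ N) : (1 + X : ℤ[X]) ^ N ∈ JJ m n N := by
  let I : Ideal ℤ :=
    { carrier := {c | C c * (1 + X) ^ N ∈ JJ m n N}
      add_mem' := by
        intro a b ha hb
        show C (a + b) * (1 + X) ^ N ∈ JJ m n N
        rw [C_add, add_mul]
        exact Ideal.add_mem _ ha hb
      zero_mem' := by
        show C 0 * (1 + X) ^ N ∈ JJ m n N
        rw [C_0, zero_mul]; exact Ideal.zero_mem _
      smul_mem' := by
        intro a b hb
        show C (a * b) * (1 + X) ^ N ∈ JJ m n N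
        rw [C_mul, mul_assoc]
        exact Ideal.mul_mem_left _ _ hb }
  have hI : I = ⊤ := by
    by_contra hne
    obtain ⟨M, hM, hle⟩ := Ideal.exists_le_maximal I hne
    have hmI : (m : ℤ) ∈ I := mem_b _
    have hM0 : M ≠ ⊥ := by
      intro h
      have := hle hmI
      rw [h, Ideal.mem_bot] at this
      exact hm (by exact_mod_cast this)
    obtain ⟨g, hg⟩ := (IsPrincipalIdealRing.principal M).principal
    have hg' : M = Ideal.span {g} := hg
    have hgp : Prime g := by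
      rw [← Ideal.span_singleton_prime, ← hg']
      · exact hM.isPrime
      · intro h
        rw [h] at hg'
        exact hM0 (by rw [hg']; simp)
    set p := g.natAbs with hpd
    have hp : p.Prime := Int.prime_iff_natAbs_prime.1 hgp
    have hdvd : ∀ c ∈ I, (p : ℤ) ∣ c := by
      intro c hc
      have := hle hc
      rw [hg', Ideal.mem_span_singleton] at this
      exact Int.natAbs_dvd.2 this
    have hpm : p ∣ m := by exact_mod_cast hdvd _ hmI
    obtain ⟨c, hc, hcI⟩ := prime_step hm hn hp hN1 (hN p (Nat.mem_primeFactors.2 ⟨hp, hpm, hm⟩))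
    have h1 := hdvd _ hcI
    rcases (Nat.prime_iff_prime_int.1 hp).dvd_or_dvd h1 with h | h
    · exact hc h
    · exact Nat.not_dvd_ordCompl hp hm (by exact_mod_cast h)
  have h1 : (1 : ℤ) ∈ I := by rw [hI]; trivial
  have h2 : C (1 : ℤ) * (1 + X) ^ N ∈ JJ m n N := h1
  rwa [C_1, one_mul] at h2

end Pool.Agent.X17.CycSum
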